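import Pool.Agent.Y453.UF.Stm

/-! Job UF-ISO: isotropic subgroups of `k H ⊕ l (s E8)` (helper901). -/

set_option autoImplicit false

namespace Pool.Agent.Y901.UF

open Pool.Agent.Y453.UF
open Finset
open Matrix hiding gram

/-- sixty times the `E8` form is a sum of positive multiples of squares -/
theorem e8_sq (y : Fin 8 → ℤ) : 60 * (y ⬝ᵥ CartanMatrix.E₈.mulVec y) =
    30 * (2 * y 7 - y 6) ^ 2 + 10 * (3 * y 6 - 2 * y 5) ^ 2 + 5 * (4 * y 5 - 3 * y 4) ^ 2 +
      3 * (5 * y 4 - 4 * y 3) ^ 2 + 30 * (2 * y 0 - y 2) ^ 2 + 10 * (3 * y 2 - 2 * y 3) ^ 2 +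
      30 * (2 * y 1 - y 3) ^ 2 + 2 * y 3 ^ 2 := by
  simp [CartanMatrix.E₈, dotProduct, mulVec, Fin.sum_univ_eight]
  ring

theorem e8_nonneg (y : Fin 8 → ℤ) : 0 ≤ y ⬝ᵥ CartanMatrix.E₈.mulVec y := by
  have h := e8_sq y
  have h2 : 0 ≤ 60 * (y ⬝ᵥ CartanMatrix.E₈.mulVec y) := by rw [h]; positivity
  omega

theorem e8_eq_zero {y : Fin 8 → ℤ} (h0 : y ⬝ᵥ CartanMatrix.E₈.mulVec y = 0) : y = 0 := by
  have h := e8_sq y
  rw [h0] at h
  have a7 := sq_nonneg (2 * y 7 - y 6)
  have a6 := sq_nonneg (3 * y 6 - 2 * y 5)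
  have a5 := sq_nonneg (4 * y 5 - 3 * y 4)
  have a4 := sq_nonneg (5 * y 4 - 4 * y 3)
  have a0 := sq_nonneg (2 * y 0 - y 2)
  have a2 := sq_nonneg (3 * y 2 - 2 * y 3)
  have a1 := sq_nonneg (2 * y 1 - y 3)
  have a3 := sq_nonneg (y 3)
  have b3 : y 3 = 0 := by
    have : y 3 ^ 2 = 0 := by linarith
    exact pow_eq_zero_iff (two_ne_zero) |>.1 this
  have b1 : 2 * y 1 - y 3 = 0 := by
    have : (2 * y 1 - y 3) ^ 2 = 0 := by linarith
    exact pow_eq_zero_iff (two_ne_zero) |>.1 this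
  have b2 : 3 * y 2 - 2 * y 3 = 0 := by
    have : (3 * y 2 - 2 * y 3) ^ 2 = 0 := by linarith
    exact pow_eq_zero_iff (two_ne_zero) |>.1 this
  have b0 : 2 * y 0 - y 2 = 0 := by
    have : (2 * y 0 - y 2) ^ 2 = 0 := by linarith
    exact pow_eq_zero_iff (two_ne_zero) |>.1 this
  have b4 : 5 * y 4 - 4 * y 3 = 0 := by
    have : (5 * y 4 - 4 * y 3) ^ 2 = 0 := by linarith
    exact pow_eq_zero_iff (two_ne_zero) |>.1 this
  have b5 : 4 * y 5 - 3 * y 4 = 0 := by
    have : (4 * y 5 - 3 * y 4) ^ 2 = 0 := by linarith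
    exact pow_eq_zero_iff (two_ne_zero) |>.1 this
  have b6 : 3 * y 6 - 2 * y 5 = 0 := by
    have : (3 * y 6 - 2 * y 5) ^ 2 = 0 := by linarith
    exact pow_eq_zero_iff (two_ne_zero) |>.1 this
  have b7 : 2 * y 7 - y 6 = 0 := by
    have : (2 * y 7 - y 6) ^ 2 = 0 := by linarith
    exact pow_eq_zero_iff (two_ne_zero) |>.1 this
  have c4 : y 4 = 0 := by omega
  have c5 : y 5 = 0 := by omega
  have c6 : y 6 = 0 := by omega
  have c7 : y 7 = 0 := by omega
  have c2 : y 2 = 0 := by omega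
  have c0 : y 0 = 0 := by omega
  have c1 : y 1 = 0 := by omega
  funext i
  fin_cases i
  · exact c0
  · exact c1
  · exact c2
  · exact b3
  · exact c4
  · exact c5
  · exact c6
  · exact c7

/-- a block diagonal form -/
theorem block_form {p k : ℕ} (M : Matrix (Fin p) (Fin p) ℤ) (x y : Fin p × Fin k → ℤ) :
    x ⬝ᵥ (Matrix.blockDiagonal fun _ : Fin k => M).mulVec y =
      ∑ j, (fun i => x (i, j)) ⬝ᵥ M.mulVec (fun i => y (i, j)) := by
  simp only [dotProduct, mulVec]
  rw [Fintype.sum_prod_type, Finset.sum_comm]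
  refine Finset.sum_congr rfl fun j _ => Finset.sum_congr rfl fun i _ => ?_
  congr 1
  rw [Fintype.sum_prod_type]
  refine Finset.sum_congr rfl fun i' _ => ?_
  rw [Finset.sum_eq_single j]
  · rw [Matrix.blockDiagonal_apply, if_pos rfl]
  · intro j' _ hj'
    rw [Matrix.blockDiagonal_apply, if_neg (Ne.symm hj'), zero_mul]
  · intro h
    exact absurd (Finset.mem_univ _) h

theorem gram_form (k l : ℕ) (s : ℤ) (x : (Fin 2 × Fin k) ⊕ (Fin 8 × Fin l) → ℤ) :
    x ⬝ᵥ (gram k l s).mulVec x = 2 * ∑ j, x (.inl (0, j)) * x (.inl (1, j)) +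
      s * ∑ j, (fun i => x (.inr (i, j))) ⬝ᵥ CartanMatrix.E₈.mulVec (fun i => x (.inr (i, j))) := by
  have h1 : x ⬝ᵥ (gram k l s).mulVec x =
      (x ∘ Sum.inl) ⬝ᵥ (Matrix.blockDiagonal fun _ : Fin k => !![0, 1; 1, 0]).mulVec (x ∘ Sum.inl) +
      (x ∘ Sum.inr) ⬝ᵥ (Matrix.blockDiagonal fun _ : Fin l => s • CartanMatrix.E₈).mulVec
        (x ∘ Sum.inr) := by
    unfold gram
    rw [Matrix.fromBlocks_mulVec]
    simp only [Matrix.zero_mulVec, add_zero, zero_add]
    simp only [dotProduct]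
    rw [Fintype.sum_sum_type]
    rfl
  rw [h1, block_form, block_form, Finset.mul_sum, Finset.mul_sum]
  congr 1
  · refine Finset.sum_congr rfl fun j _ => ?_
    simp [dotProduct, mulVec, Fin.sum_univ_two]
    ring
  · refine Finset.sum_congr rfl fun j _ => ?_
    rw [Matrix.smul_mulVec, dotProduct_smul, smul_eq_mul]
    rfl

theorem iso : S_ISO := by
  intro k l m s hs v hv hiso
  have hs2 : s * s = 1 := by rcases hs with rfl | rfl <;> norm_num
  let L : (Fin m → ℤ) →ₗ[ℤ] ((Fin 2 × Fin k) ⊕ (Fin 8 × Fin l) → ℤ) := Fintype.linearCombination ℤ v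
  let P : ((Fin 2 × Fin k) ⊕ (Fin 8 × Fin l) → ℤ) →ₗ[ℤ] (Fin k → ℤ) :=
    { toFun := fun x j => x (.inl (0, j)) - s * x (.inl (1, j))
      map_add' := fun x y => by
        funext j
        simp only [Pi.add_apply]
        ring
      map_smul' := fun c x => by
        funext j
        simp only [Pi.smul_apply, smul_eq_mul, RingHom.id_apply]
        ring }
  have hL : Function.Injective L := linearIndependent_iff_injective_fintypeLinearCombination.1 hv
  refine le_of_fin_injective ℤ (P.comp L) ?_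
  rw [← LinearMap.ker_eq_bot, LinearMap.ker_eq_bot']
  intro c hc
  have hx : L c = 0 := by
    set x := L c with hxdef
    have hP : ∀ j, x (.inl (0, j)) = s * x (.inl (1, j)) := by
      intro j
      have := congrFun hc j
      have h2 : x (.inl (0, j)) - s * x (.inl (1, j)) = 0 := this
      linarith
    have hB : x ⬝ᵥ (gram k l s).mulVec x = 0 := by
      have h1 : x = ∑ a, c a • v a := rfl
      rw [h1]
      have h2 : (gram k l s).mulVec (∑ a, c a • v a) = ∑ a, c a • (gram k l s).mulVec (v a) := by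
        have h3 := map_sum (Matrix.mulVecLin (gram k l s)) (fun a => c a • v a) Finset.univ
        simpa only [Matrix.mulVecLin_apply, Matrix.mulVec_smul] using h3
      rw [h2, dotProduct_sum]
      refine Finset.sum_eq_zero fun b _ => ?_
      rw [sum_dotProduct]
      refine Finset.sum_eq_zero fun a _ => ?_
      rw [smul_dotProduct, dotProduct_smul, hiso a b, smul_zero, smul_zero]
    rw [gram_form] at hB
    have h4 : ∑ j, x (.inl (0, j)) * x (.inl (1, j)) = s * ∑ j, x (.inl (1, j)) ^ 2 := by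
      rw [Finset.mul_sum]
      refine Finset.sum_congr rfl fun j _ => ?_
      rw [hP j]
      ring
    rw [h4] at hB
    have h5 : 2 * ∑ j, x (.inl (1, j)) ^ 2 + ∑ j, (fun i => x (.inr (i, j))) ⬝ᵥ
        CartanMatrix.E₈.mulVec (fun i => x (.inr (i, j))) = 0 := by
      have h6 : s * (2 * ∑ j, x (.inl (1, j)) ^ 2 + ∑ j, (fun i => x (.inr (i, j))) ⬝ᵥ
        CartanMatrix.E₈.mulVec (fun i => x (.inr (i, j)))) = 0 := by
        linear_combination hB
      rcases mul_eq_zero.1 h6 with h7 | h7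
      · rw [h7] at hs2
        norm_num at hs2
      · exact h7
    have n1 : 0 ≤ ∑ j, x (.inl (1, j)) ^ 2 := Finset.sum_nonneg fun j _ => sq_nonneg _
    have n2 : 0 ≤ ∑ j, (fun i => x (.inr (i, j))) ⬝ᵥ
        CartanMatrix.E₈.mulVec (fun i => x (.inr (i, j))) :=
      Finset.sum_nonneg fun j _ => e8_nonneg _
    have z1 : ∑ j, x (.inl (1, j)) ^ 2 = 0 := by linarith
    have z2 : ∑ j, (fun i => x (.inr (i, j))) ⬝ᵥ
        CartanMatrix.E₈.mulVec (fun i => x (.inr (i, j))) = 0 := by linarith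
    rw [Finset.sum_eq_zero_iff_of_nonneg (fun j _ => sq_nonneg _)] at z1
    rw [Finset.sum_eq_zero_iff_of_nonneg (fun j _ => e8_nonneg _)] at z2
    have w1 : ∀ j, x (.inl (1, j)) = 0 := fun j =>
      pow_eq_zero_iff (two_ne_zero) |>.1 (z1 j (Finset.mem_univ _))
    funext i
    rcases i with ⟨a, j⟩ | ⟨a, j⟩
    · fin_cases a
      · show x (.inl (0, j)) = 0
        rw [hP, w1, mul_zero]
      · exact w1 j
    · exact congrFun (e8_eq_zero (z2 j (Finset.mem_univ _))) a
  exact hL (by rw [hx, map_zero])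

end Pool.Agent.Y901.UF
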